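import Pool.Agent.Helper74.CO.Goals

/-!
# Project CO, packet WE
-/

set_option autoImplicit false

namespace Pool.Agent.Helper44.CO

open Finset Pool.Agent.Helper74.CO

lemma ex_add (a b : ℝ) : ex (a + b) = ex a * ex b := by
  unfold ex
  rw [← Complex.exp_add]
  congr 1
  push_cast
  ring

lemma norm_ex (t : ℝ) : ‖ex t‖ = 1 := by
  unfold ex
  rw [show (2 * (Real.pi : ℂ) * (t : ℂ) * Complex.I) =
    ((2 * Real.pi * t : ℝ) : ℂ) * Complex.I by push_cast; ring]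
  exact Complex.norm_exp_ofReal_mul_I _

section

variable {p : ℕ} [Fact p.Prime] {g c e v : ZMod p} {χ : MulChar (ZMod p) ℂ}
  {ψ : ℤ → AddChar (ZMod p) ℂ}

/-- the sum in terms of characters -/
lemma key (hc : c ≠ 0) (he : e ≠ 0)
    (hχ : ∀ x : ZMod p, x ≠ 0 → ∀ j : ℤ, (χ ^ j) x = ex (j * ((ind g x : ℝ) / ((p : ℝ) - 1))))
    (hψ : ∀ (l : ℤ) (x : ZMod p), ψ l x = ex (l * cw p x)) (j k l : ℤ) :
    ‖∑ x ∈ Xw e v, ex (j * aw p g c x + k * aw p g c (Mw e v x) + l * cw p x)‖ =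
    ‖∑ x, ((χ ^ j) x * ψ l x) * ((χ ^ k) (x - v) * (χ ^ k)⁻¹ (x - e))‖ := by
  have h1 : ∑ x ∈ Xw e v, ex (j * aw p g c x + k * aw p g c (Mw e v x) + l * cw p x) =
      ((χ ^ j) c⁻¹ * (χ ^ k) (e * c⁻¹)) *
      ∑ x ∈ Xw e v, ((χ ^ j) x * ψ l x) * ((χ ^ k) (x - v) * (χ ^ k)⁻¹ (x - e)) := by
    rw [mul_sum]
    apply sum_congr rfl
    intro x hx
    simp only [Xw, mem_filter, mem_univ, true_and] at hx
    obtain ⟨hx0, hxv, hxe⟩ := hx
    rw [ex_add, ex_add]
    have e1 : ex (j * aw p g c x) = (χ ^ j) x * (χ ^ j) c⁻¹ := by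
      rw [← map_mul, ← div_eq_mul_inv, hχ _ (div_ne_zero hx0 hc)]
      rfl
    have e2 : ex (k * aw p g c (Mw e v x)) =
        (χ ^ k) (e * c⁻¹) * ((χ ^ k) (x - v) * (χ ^ k)⁻¹ (x - e)) := by
      have h3 : e * c⁻¹ * ((x - v) * (x - e)⁻¹) = Mw e v x / c := by
        unfold Mw
        ring
      have h4 : Mw e v x / c ≠ 0 := by
        rw [← h3]
        exact mul_ne_zero (mul_ne_zero he (inv_ne_zero hc))
          (mul_ne_zero (sub_ne_zero.2 hxv) (inv_ne_zero (sub_ne_zero.2 hxe)))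
      rw [MulChar.inv_apply', ← map_mul, ← map_mul, h3, hχ _ h4]
      rfl
    rw [e1, e2, ← hψ l x]
    ring
  have h2 : ∑ x ∈ Xw e v, ((χ ^ j) x * ψ l x) * ((χ ^ k) (x - v) * (χ ^ k)⁻¹ (x - e)) =
      ∑ x, ((χ ^ j) x * ψ l x) * ((χ ^ k) (x - v) * (χ ^ k)⁻¹ (x - e)) := by
    apply sum_subset (subset_univ _)
    intro x _ hx
    simp only [Xw, mem_filter, mem_univ, true_and, not_and_or, not_not] at hx
    rcases hx with h | h | h
    · rw [h, MulChar.map_zero]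
      ring
    · rw [h, sub_self, MulChar.map_zero]
      ring
    · rw [h, sub_self, MulChar.map_zero]
      ring
  rw [h1, norm_mul, norm_mul, h2, hχ _ (inv_ne_zero hc), hχ _ (mul_ne_zero he (inv_ne_zero hc)),
    norm_ex, norm_ex]
  ring

lemma norm_le (hχ : ∀ x : ZMod p, x ≠ 0 → ∀ j : ℤ,
    (χ ^ j) x = ex (j * ((ind g x : ℝ) / ((p : ℝ) - 1)))) (j : ℤ) (x : ZMod p) :
    ‖(χ ^ j) x‖ ≤ 1 := by
  by_cases hx : x = 0
  · rw [hx, MulChar.map_zero, norm_zero]
    exact zero_le_one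
  · rw [hχ x hx, norm_ex]

/-- the case `k = 0` -/
lemma kzero (hχ : ∀ x : ZMod p, x ≠ 0 → ∀ j : ℤ,
    (χ ^ j) x = ex (j * ((ind g x : ℝ) / ((p : ℝ) - 1))))
    (hψ : ∀ (l : ℤ) (x : ZMod p), ψ l x = ex (l * cw p x)) (j l : ℤ) :
    ‖∑ x, ((χ ^ j) x * ψ l x) * ((χ ^ (0 : ℤ)) (x - v) * (χ ^ (0 : ℤ))⁻¹ (x - e))‖ ≤
    ‖∑ x, (χ ^ j) x * ψ l x‖ + 2 := by
  have h1 : ∀ x : ZMod p, ((χ ^ j) x * ψ l x) * ((χ ^ (0 : ℤ)) (x - v) *
      (χ ^ (0 : ℤ))⁻¹ (x - e)) = (χ ^ j) x * ψ l x -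
      (if x ∈ ({v, e} : Finset (ZMod p)) then (χ ^ j) x * ψ l x else 0) := by
    intro x
    rw [zpow_zero, inv_one]
    by_cases hv : x = v
    · rw [if_pos (by simp [hv]), hv, sub_self, MulChar.map_zero]
      ring
    · by_cases he : x = e
      · rw [if_pos (by simp [he]), he, sub_self, MulChar.map_zero]
        ring
      · rw [if_neg (by simp [hv, he]), MulChar.one_apply (sub_ne_zero.2 hv).isUnit,
          MulChar.one_apply (sub_ne_zero.2 he).isUnit]
        ring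
  have h2 : ‖∑ x, (if x ∈ ({v, e} : Finset (ZMod p)) then (χ ^ j) x * ψ l x else 0)‖ ≤ 2 := by
    rw [← sum_filter, filter_mem_eq_inter, univ_inter]
    refine (norm_sum_le_of_le _ (f := fun x => (χ ^ j) x * ψ l x) (n := fun _ => (1 : ℝ))
      (fun x _ => ?_)).trans ?_
    · rw [norm_mul, hψ, norm_ex, mul_one]
      exact norm_le hχ j x
    · rw [sum_const, nsmul_eq_mul, mul_one]
      exact_mod_cast card_le_two
  rw [sum_congr rfl (fun x _ => h1 x), sum_sub_distrib]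
  exact (norm_sub_le _ _).trans (by linarith)

end

theorem t_WE (hLIM : LIM) (hGAU : ∀ (F : Type) [Field F] [Fintype F] [DecidableEq F], GAU F)
    (hTP : ∀ (F : Type) [Field F] [Fintype F] [DecidableEq F], TP F)
    (hHMC : HMC) (hCHM : CHM) (hCHA : CHA) : WE := by
  intro K κ hκ
  obtain ⟨q₁, h₁⟩ := hLIM κ hκ
  obtain ⟨q₂, h₂⟩ := hHMC (κ / 2) (by positivity)
  refine ⟨q₁ + q₂ + K + 6, (2 * K) ^ 3 * ⌈16 / κ ^ 2⌉₊, ?_⟩
  intro p _ g c S hp hg hc hS
  obtain ⟨χ, hχ, hχ1⟩ := hCHM (ZMod p) g hg (by rw [ZMod.card]; omega)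
  obtain ⟨ψ, hψ, -, hψ0, hψ1⟩ := hCHA p
  rw [ZMod.card] at hχ hχ1
  have hp6 : (6 : ℝ) ≤ p := by exact_mod_cast (show 6 ≤ p by omega)
  have hsq : (1 : ℝ) ≤ √(p : ℝ) := by
    rw [Real.one_le_sqrt]
    linarith
  have hpsq : (p : ℝ) ≤ p * √(p : ℝ) := by nlinarith
  -- size of `X`
  have hX : ∀ e v : ZMod p, (p : ℝ) - 3 ≤ #(Xw e v) := by
    intro e v
    have h3 : (univ : Finset (ZMod p)) ⊆ Xw e v ∪ {0, v, e} := by
      intro x _
      simp only [Xw, mem_union, mem_filter, mem_univ, true_and, mem_insert, mem_singleton]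
      tauto
    have h4 := (card_le_card h3).trans (card_union_le _ _)
    rw [card_univ, ZMod.card] at h4
    have h5 : #({0, v, e} : Finset (ZMod p)) ≤ 3 := card_le_three
    have h6 : p ≤ #(Xw e v) + 3 := by omega
    have : (p : ℝ) ≤ #(Xw e v) + 3 := by exact_mod_cast h6
    linarith
  -- the set of triples
  let J : Finset ℤ := Ioo (-(K : ℤ)) K
  let bad : ℤ × ℤ × ℤ → Finset (ZMod p × ZMod p) := fun t =>
    S.filter (fun P => t.2.1 ≠ 0 ∧ t.2.2 ≠ 0 ∧ κ * #(Xw P.1 P.2) <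
      ‖∑ x ∈ Xw P.1 P.2, ex (t.1 * aw p g c x + t.2.1 * aw p g c (Mw P.1 P.2 x) +
        t.2.2 * cw p x)‖)
  have hcov : S ⊆ (J ×ˢ J ×ˢ J).biUnion bad := by
    intro P hP
    obtain ⟨hP0, hPe, hPE⟩ := hS P hP
    unfold Eq3 at hPE
    push Not at hPE
    obtain ⟨j, k, l, hj, hk, hl, hjkl, hbig⟩ := hPE
    rw [mem_biUnion]
    refine ⟨(j, k, l), ?_, ?_⟩
    · simp only [J, mem_product, mem_Ioo]
      exact ⟨abs_lt.1 hj, abs_lt.1 hk, abs_lt.1 hl⟩
    have hkey := key (v := P.2) hc hP0 hχ hψ j k l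
    have hX' := hX P.1 P.2
    have hXκ : κ * ((p : ℝ) - 5) ≤ κ * #(Xw P.1 P.2) := by
      apply mul_le_mul_of_nonneg_left _ hκ.le
      linarith
    by_cases hk0 : k = 0
    · exfalso
      have h3 := kzero (e := P.1) (v := P.2) hχ hψ j l
      rw [hk0] at hkey
      have h4 : ‖∑ x, (χ ^ j) x * ψ l x‖ ^ 2 ≤ 4 * p := by
        by_cases hl0 : l = 0
        · have hj0 : j ≠ 0 := by
            intro h
            exact hjkl h hk0 hl0
          have h5 : ∑ x, (χ ^ j) x * ψ l x = 0 := by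
            rw [hl0, hψ0]
            simp only [AddChar.one_apply, mul_one]
            exact MulChar.sum_eq_zero_of_ne_one (hχ1 j hj0 (by omega))
          rw [h5, norm_zero]
          nlinarith
        · have h5 := hGAU (ZMod p) (χ ^ j) (ψ l) (hψ1 l hl0 (by omega))
          rwa [ZMod.card] at h5
      have h6 := h₁ p (by omega) ‖∑ x, (χ ^ j) x * ψ l x‖ (norm_nonneg _) (by
        refine h4.trans ?_
        nlinarith)
      rw [hk0] at hbig
      rw [hkey] at hbig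
      linarith
    · by_cases hl0 : l = 0
      · exfalso
        have h4 := hTP (ZMod p) (χ ^ j) (χ ^ k) P.2 P.1 (hχ1 k hk0 (by omega)) hPe
        rw [ZMod.card] at h4
        have h5 : ∑ x, ((χ ^ j) x * ψ l x) * ((χ ^ k) (x - P.2) * (χ ^ k)⁻¹ (x - P.1)) =
            ∑ x, (χ ^ j) x * ((χ ^ k) (x - P.2) * (χ ^ k)⁻¹ (x - P.1)) := by
          rw [hl0, hψ0]
          simp only [AddChar.one_apply, mul_one]
        rw [h5] at hkey
        rw [hkey] at hbig
        have h6 := h₁ p (by omega) _ (norm_nonneg _) (h4.trans (by nlinarith))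
        linarith
      · simp only [bad, mem_filter]
        exact ⟨hP, hk0, hl0, hbig⟩
  have hbadcard : ∀ t ∈ J ×ˢ J ×ˢ J, #(bad t) ≤ ⌈16 / κ ^ 2⌉₊ := by
    intro t ht
    simp only [J, mem_product, mem_Ioo] at ht
    by_cases ht0 : t.2.1 ≠ 0
    · have h3 := h₂ (ZMod p) (χ ^ t.2.1) (fun x => (χ ^ t.1) x * ψ t.2.2 x)
        ((bad t).image Prod.swap) (by rw [ZMod.card]; omega)
        (hχ1 _ ht0 (by
          have : |t.2.1| < (K : ℤ) := abs_lt.2 ht.2.1
          omega))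
        (fun x => by
          rw [norm_mul, hψ, norm_ex, mul_one]
          exact norm_le hχ _ x)
        (fun P hP => by
          rw [mem_image] at hP
          obtain ⟨Q, hQ, rfl⟩ := hP
          simp only [bad, mem_filter] at hQ
          obtain ⟨hQS, -, -, hQb⟩ := hQ
          obtain ⟨hQ0, hQe, -⟩ := hS Q hQS
          refine ⟨hQe, ?_⟩
          rw [key (v := Q.2) hc hQ0 hχ hψ] at hQb
          refine le_trans ?_ hQb.le
          rw [ZMod.card]
          have := hX Q.1 Q.2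
          have h7 : κ * ((p : ℝ) - 3) ≤ κ * #(Xw Q.1 Q.2) := mul_le_mul_of_nonneg_left this hκ.le
          nlinarith)
      rw [card_image_of_injective _ Prod.swap_injective] at h3
      have h8 : (#(bad t) : ℝ) ≤ 16 / κ ^ 2 := by
        rw [le_div_iff₀ (by positivity)]
        nlinarith
      exact_mod_cast h8.trans (Nat.le_ceil _)
    · have : bad t = ∅ := by
        apply filter_eq_empty_iff.2
        intro P _ h
        exact ht0 h.1
      rw [this, card_empty]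
      exact Nat.zero_le _
  have hJ : #J ≤ 2 * K := by
    simp only [J, Int.card_Ioo]
    omega
  refine (card_le_card hcov).trans ((card_biUnion_le_card_mul _ _ _ hbadcard).trans ?_)
  apply Nat.mul_le_mul_right
  rw [card_product, card_product]
  calc #J * (#J * #J) ≤ (2 * K) * ((2 * K) * (2 * K)) :=
        Nat.mul_le_mul hJ (Nat.mul_le_mul hJ hJ)
    _ = (2 * K) ^ 3 := by ring

end Pool.Agent.Helper44.CO
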